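import Pool.Agent.helper73.TC.YDefs
import Pool.Agent.helper28.TC.Y4
import Pool.Agent.helper19.TC.Y2
import Pool.Agent.helper73.TC.Data.PaChk00
import Pool.Agent.helper73.TC.Data.PaChk01
import Pool.Agent.helper73.TC.Data.PaChk02
import Pool.Agent.helper73.TC.Data.PaChk03
import Pool.Agent.helper73.TC.Data.PaChk04
import Pool.Agent.helper73.TC.Data.PaChk05
import Pool.Agent.helper73.TC.Data.PaChk06
import Pool.Agent.helper73.TC.Data.PaChk07
import Pool.Agent.helper73.TC.Data.PaChk08
import Pool.Agent.helper73.TC.Data.PaChk09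
import Pool.Agent.helper73.TC.Data.PaChk10
import Pool.Agent.helper73.TC.Data.PaChk11
import Pool.Agent.helper73.TC.Data.PaChk12
import Pool.Agent.helper73.TC.Data.PaChk13
import Pool.Agent.helper73.TC.Data.PaChk14
import Pool.Agent.helper73.TC.Data.PaChk15
import Pool.Agent.helper73.TC.Data.PaChk16
import Pool.Agent.helper73.TC.Data.PaChk17
import Pool.Agent.helper73.TC.Data.PaChk18
import Pool.Agent.helper73.TC.Data.PaChk19
import Pool.Agent.helper73.TC.Data.PaChk20
import Pool.Agent.helper73.TC.Data.PaChk21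
import Pool.Agent.helper73.TC.Data.PaChk22
import Pool.Agent.helper73.TC.Data.PaChk23
import Pool.Agent.helper73.TC.Data.PaChk24
import Pool.Agent.helper73.TC.Data.PaChk25
import Pool.Agent.helper73.TC.Data.PaChk26
import Pool.Agent.helper73.TC.Data.PaChk27
import Pool.Agent.helper73.TC.Data.PaChk28
import Pool.Agent.helper73.TC.Data.PaChk29
import Pool.Agent.helper73.TC.Data.PaChk30
import Pool.Agent.helper73.TC.Data.PaChk31

/-! Families of the parity certificate for the complex on 20 vertices: case distinction over the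
kernel-checked start sets. -/

set_option autoImplicit false
set_option linter.all false

noncomputable section
namespace Pool.Agent.helper73.TC.Y5
open Pool.Agent.helper73.TC

theorem testBit_big {S : ℕ} (h : S < 1048576) {w : ℕ} (hw : 20 ≤ w) : S.testBit w = false := by
  apply Nat.testBit_lt_two_pow
  calc S < 1048576 := h
    _ = 2 ^ 20 := by norm_num
    _ ≤ 2 ^ w := Nat.pow_le_pow_right (by norm_num) hw

theorem En_xor (a S0 S : ℕ) (js2 js3 : List ℕ) (h : En js2 js3 S0 S) :
    En js2 js3 (Nat.xor a S0) (Nat.xor a S) := by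
  obtain ⟨h1, h2, h3⟩ := h
  have e : ∀ (x w : ℕ), (Nat.xor a x).testBit w = Bool.xor (a.testBit w) (x.testBit w) :=
    fun x w => Nat.testBit_xor a x w
  refine ⟨?_, ?_, ?_⟩
  · intro w hw
    apply h1
    intro hh
    apply hw
    rw [e, e, hh]
  · intro j hj
    have := h2 j hj
    rw [e, e, e, e]
    revert this
    cases a.testBit (2 * j) <;> cases a.testBit (2 * j + 1) <;> cases S.testBit (2 * j) <;>
      cases S.testBit (2 * j + 1) <;> cases S0.testBit (2 * j) <;> cases S0.testBit (2 * j + 1) <;>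
      simp
  · intro j hj
    have := h3 j hj
    rw [e, e, e, e]
    revert this
    cases a.testBit (2 * j) <;> cases a.testBit (2 * j + 1) <;> cases S.testBit (2 * j) <;>
      cases S.testBit (2 * j + 1) <;> cases S0.testBit (2 * j) <;> cases S0.testBit (2 * j + 1) <;>
      simp

theorem en_of (i U S0 : ℕ) (js2 js3 : List ℕ) (hU : FamH i U) (hS0 : S0 < 1048576)
    (hfix : ∀ j < 10, j ∉ js2 → j ∉ js3 → U.testBit (2 * j) = S0.testBit (2 * j) ∧
      U.testBit (2 * j + 1) = S0.testBit (2 * j + 1))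
    (h2 : ∀ j ∈ js2, (S0.testBit (2 * j) = false ∧ S0.testBit (2 * j + 1) = false) ∧
      (U.testBit (2 * j) = true ∨ U.testBit (2 * j + 1) = true))
    (h3 : ∀ j ∈ js3, S0.testBit (2 * j) = false ∧ S0.testBit (2 * j + 1) = false) :
    En js2 js3 S0 U := by
  obtain ⟨hlt, haf, -⟩ := hU
  refine ⟨?_, ?_, ?_⟩
  · intro w hw
    by_contra hcon
    push Not at hcon
    apply hw
    rcases lt_or_ge w 20 with hlt20 | hge
    · have hj : w / 2 < 10 := by omega
      have hf := hfix (w / 2) hj hcon.1 hcon.2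
      rcases Nat.mod_two_eq_zero_or_one w with hm | hm
      · have : 2 * (w / 2) = w := by omega
        rw [this] at hf
        exact hf.1
      · have : 2 * (w / 2) + 1 = w := by omega
        rw [this] at hf
        exact hf.2
    · rw [testBit_big hlt hge, testBit_big hS0 hge]
  · intro j hj
    obtain ⟨⟨ha, hb⟩, hor⟩ := h2 j hj
    have haf' := haf j
    rw [ha, hb]
    revert haf' hor
    cases U.testBit (2 * j) <;> cases U.testBit (2 * j + 1) <;> simp
  · intro j hj
    obtain ⟨ha, hb⟩ := h3 j hj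
    have haf' := haf j
    rw [ha, hb]
    revert haf'
    cases U.testBit (2 * j) <;> cases U.testBit (2 * j + 1) <;> simp

/-- bit `b` of a list of options -/
theorem pair_cases (i U j : ℕ) (hU : FamH i U) :
    (U.testBit (2 * j) = false ∧ U.testBit (2 * j + 1) = false) ∨
    (U.testBit (2 * j) = true ∧ U.testBit (2 * j + 1) = false) ∨
    (U.testBit (2 * j) = false ∧ U.testBit (2 * j + 1) = true) := by
  have := hU.2.1 j
  revert this
  cases U.testBit (2 * j) <;> cases U.testBit (2 * j + 1) <;> simp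

theorem use0 (F : Type) [Field F] (i U S0 : ℕ) (js2 js3 : List ℕ) (D len : ℕ) (hi : i < 10)
    (hS0 : S0 < 1048576) (hnd : (js2 ++ js3).Nodup) (hlt : ∀ j ∈ js2 ++ js3, j < 10)
    (h : Pa.chk false (2 * i) (Pa.NV i) (Pa.NE i) D S0 js2 js3 len = true)
    (hE : En js2 js3 S0 U) : Good F false (2 * i) (Pa.NV i) (Pa.NE i) U :=
  chk_sound F false (2 * i) (Pa.NV i) (Pa.NE i) D S0 js2 js3 len hS0 (NV_ok i hi)
    (fun c h1 h2 => NE_ok i c hi h1 h2) hnd hlt h U hE

theorem use1 (F : Type) [Field F] (i U S0 S1 : ℕ) (js2 js3 : List ℕ) (D len : ℕ) (hi : i < 10)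
    (hS0 : S1 < 1048576) (hc : cmpl i S0 = S1) (hnd : (js2 ++ js3).Nodup)
    (hlt : ∀ j ∈ js2 ++ js3, j < 10)
    (h : Pa.chk true (2 * i) (Pa.NV i) (Pa.NE i) D S1 js2 js3 len = true)
    (hE : En js2 js3 S0 U) : Good F true (2 * i) (Pa.NV i) (Pa.NE i) (cmpl i U) := by
  refine chk_sound F true (2 * i) (Pa.NV i) (Pa.NE i) D S1 js2 js3 len hS0 (NV_ok i hi)
    (fun c h1 h2 => NE_ok i c hi h1 h2) hnd hlt h (cmpl i U) ?_
  rw [← hc]
  exact En_xor _ _ _ _ _ hE

theorem one_testBit {n : ℕ} (h : 1 ≤ n) : (1 : ℕ).testBit n = false := by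
  apply Nat.testBit_lt_two_pow
  calc 1 < 2 ^ 1 := by norm_num
    _ ≤ 2 ^ n := Nat.pow_le_pow_right (by norm_num) h

theorem cases_ge (i U : ℕ) (hU : FamH i U) (hi : 3 ≤ i) (hi' : i < 10) (A B : List ℕ)
    (hA : ∀ j, j ∈ A ↔ 1 ≤ j ∧ j < i) (hB : ∀ j, j ∈ B ↔ i < j ∧ j < 10) :
    En [] B 0 U ∨ En A B 1 U := by
  obtain ⟨hlt, haf, hz0, hz1, hor⟩ := id hU
  rcases hor with h1 | ⟨h0, h1⟩
  · left
    refine en_of i U 0 [] B hU (by norm_num) ?_ (by simp) (by simp)
    intro j hj _ hjB
    have hji : j ≤ i := by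
      by_contra hcc
      exact hjB ((hB j).2 ⟨by omega, hj⟩)
    have k0 : U.testBit (2 * j) = false := by
      by_contra hcc
      have := h1 (2 * j) (by simpa using hcc)
      omega
    have k1 : U.testBit (2 * j + 1) = false := by
      by_contra hcc
      have := h1 (2 * j + 1) (by simpa using hcc)
      omega
    rw [k0, k1]
    simp
  · right
    have hb1 : U.testBit 1 = false := by
      have := haf 0
      simp only [Nat.mul_zero, Nat.zero_add] at this
      by_contra hcc
      exact this ⟨h0, by simpa using hcc⟩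
    refine en_of i U 1 A B hU (by norm_num) ?_ ?_ ?_
    · intro j hj hjA hjB
      have hji : j = 0 ∨ j = i := by
        by_contra hcc
        push Not at hcc
        rcases lt_trichotomy j i with h | h | h
        · exact hjA ((hA j).2 ⟨by omega, h⟩)
        · exact hcc.2 h
        · exact hjB ((hB j).2 ⟨h, hj⟩)
      rcases hji with rfl | rfl
      · simp only [Nat.mul_zero, Nat.zero_add]
        rw [h0, hb1, one_testBit (le_refl 1)]
        simp
      · rw [hz0, hz1, one_testBit (by omega), one_testBit (by omega)]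
        simp
    · intro j hj
      have := (hA j).1 hj
      exact ⟨⟨one_testBit (by omega), one_testBit (by omega)⟩, h1 j this.2⟩
    · intro j hj
      have := (hB j).1 hj
      exact ⟨one_testBit (by omega), one_testBit (by omega)⟩

theorem cases0 (U : ℕ) (hU : FamH 0 U) :
    En [] [3, 4, 5, 6, 7, 8, 9] 0 U ∨ En [] [3, 4, 5, 6, 7, 8, 9] 16 U ∨ En [] [3, 4, 5, 6, 7, 8, 9] 32 U ∨ En [] [3, 4, 5, 6, 7, 8, 9] 4 U ∨ En [] [3, 4, 5, 6, 7, 8, 9] 20 U ∨ En [] [3, 4, 5, 6, 7, 8, 9] 36 U ∨ En [] [3, 4, 5, 6, 7, 8, 9] 8 U ∨ En [] [3, 4, 5, 6, 7, 8, 9] 24 U ∨ En [] [3, 4, 5, 6, 7, 8, 9] 40 U := by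
  have hz0 := hU.2.2.1
  have hz1 := hU.2.2.2.1
  have hA := hU.2.2.2.2
  have p1 := pair_cases 0 U 1 hU
  have p2 := pair_cases 0 U 2 hU
  simp only [Nat.reduceMul, Nat.reduceAdd] at p1 p2 hz0 hz1
  rcases p1 with ⟨b2, b3⟩ | ⟨b2, b3⟩ | ⟨b2, b3⟩ <;> rcases p2 with ⟨b4, b5⟩ | ⟨b4, b5⟩ | ⟨b4, b5⟩
  · refine Or.inl ?_
    refine en_of 0 U 0 [] [3, 4, 5, 6, 7, 8, 9] hU (by norm_num) ?_ ?_ ?_
    · intro j hj hn2 hn3
      have hj3 : j < 3 := by
        by_contra hcc
        exact hn3 (by interval_cases j <;> first | decide | omega)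
      interval_cases j
      · exact ⟨hz0, hz1⟩
      · exact ⟨b2, b3⟩
      · exact ⟨b4, b5⟩
    · intro j hj; exact absurd hj (by simp)
    · decide
  · refine Or.inr (Or.inl ?_)
    refine en_of 0 U 16 [] [3, 4, 5, 6, 7, 8, 9] hU (by norm_num) ?_ ?_ ?_
    · intro j hj hn2 hn3
      have hj3 : j < 3 := by
        by_contra hcc
        exact hn3 (by interval_cases j <;> first | decide | omega)
      interval_cases j
      · exact ⟨hz0, hz1⟩
      · exact ⟨b2, b3⟩
      · exact ⟨b4, b5⟩
    · intro j hj; exact absurd hj (by simp)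
    · decide
  · refine Or.inr (Or.inr (Or.inl ?_))
    refine en_of 0 U 32 [] [3, 4, 5, 6, 7, 8, 9] hU (by norm_num) ?_ ?_ ?_
    · intro j hj hn2 hn3
      have hj3 : j < 3 := by
        by_contra hcc
        exact hn3 (by interval_cases j <;> first | decide | omega)
      interval_cases j
      · exact ⟨hz0, hz1⟩
      · exact ⟨b2, b3⟩
      · exact ⟨b4, b5⟩
    · intro j hj; exact absurd hj (by simp)
    · decide
  · refine Or.inr (Or.inr (Or.inr (Or.inl ?_)))
    refine en_of 0 U 4 [] [3, 4, 5, 6, 7, 8, 9] hU (by norm_num) ?_ ?_ ?_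
    · intro j hj hn2 hn3
      have hj3 : j < 3 := by
        by_contra hcc
        exact hn3 (by interval_cases j <;> first | decide | omega)
      interval_cases j
      · exact ⟨hz0, hz1⟩
      · exact ⟨b2, b3⟩
      · exact ⟨b4, b5⟩
    · intro j hj; exact absurd hj (by simp)
    · decide
  · refine Or.inr (Or.inr (Or.inr (Or.inr (Or.inl ?_))))
    refine en_of 0 U 20 [] [3, 4, 5, 6, 7, 8, 9] hU (by norm_num) ?_ ?_ ?_
    · intro j hj hn2 hn3
      have hj3 : j < 3 := by
        by_contra hcc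
        exact hn3 (by interval_cases j <;> first | decide | omega)
      interval_cases j
      · exact ⟨hz0, hz1⟩
      · exact ⟨b2, b3⟩
      · exact ⟨b4, b5⟩
    · intro j hj; exact absurd hj (by simp)
    · decide
  · refine Or.inr (Or.inr (Or.inr (Or.inr (Or.inr (Or.inl ?_)))))
    refine en_of 0 U 36 [] [3, 4, 5, 6, 7, 8, 9] hU (by norm_num) ?_ ?_ ?_
    · intro j hj hn2 hn3
      have hj3 : j < 3 := by
        by_contra hcc
        exact hn3 (by interval_cases j <;> first | decide | omega)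
      interval_cases j
      · exact ⟨hz0, hz1⟩
      · exact ⟨b2, b3⟩
      · exact ⟨b4, b5⟩
    · intro j hj; exact absurd hj (by simp)
    · decide
  · refine Or.inr (Or.inr (Or.inr (Or.inr (Or.inr (Or.inr (Or.inl ?_))))))
    refine en_of 0 U 8 [] [3, 4, 5, 6, 7, 8, 9] hU (by norm_num) ?_ ?_ ?_
    · intro j hj hn2 hn3
      have hj3 : j < 3 := by
        by_contra hcc
        exact hn3 (by interval_cases j <;> first | decide | omega)
      interval_cases j
      · exact ⟨hz0, hz1⟩
      · exact ⟨b2, b3⟩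
      · exact ⟨b4, b5⟩
    · intro j hj; exact absurd hj (by simp)
    · decide
  · refine Or.inr (Or.inr (Or.inr (Or.inr (Or.inr (Or.inr (Or.inr (Or.inl ?_)))))))
    refine en_of 0 U 24 [] [3, 4, 5, 6, 7, 8, 9] hU (by norm_num) ?_ ?_ ?_
    · intro j hj hn2 hn3
      have hj3 : j < 3 := by
        by_contra hcc
        exact hn3 (by interval_cases j <;> first | decide | omega)
      interval_cases j
      · exact ⟨hz0, hz1⟩
      · exact ⟨b2, b3⟩
      · exact ⟨b4, b5⟩
    · intro j hj; exact absurd hj (by simp)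
    · decide
  · refine Or.inr (Or.inr (Or.inr (Or.inr (Or.inr (Or.inr (Or.inr (Or.inr (?_))))))))
    refine en_of 0 U 40 [] [3, 4, 5, 6, 7, 8, 9] hU (by norm_num) ?_ ?_ ?_
    · intro j hj hn2 hn3
      have hj3 : j < 3 := by
        by_contra hcc
        exact hn3 (by interval_cases j <;> first | decide | omega)
      interval_cases j
      · exact ⟨hz0, hz1⟩
      · exact ⟨b2, b3⟩
      · exact ⟨b4, b5⟩
    · intro j hj; exact absurd hj (by simp)
    · decide

theorem cases1 (U : ℕ) (hU : FamH 1 U) :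
    En [] [3, 4, 5, 6, 7, 8, 9] 0 U ∨ En [] [3, 4, 5, 6, 7, 8, 9] 16 U ∨ En [] [3, 4, 5, 6, 7, 8, 9] 32 U ∨ En [] [3, 4, 5, 6, 7, 8, 9] 1 U ∨ En [] [3, 4, 5, 6, 7, 8, 9] 17 U ∨ En [] [3, 4, 5, 6, 7, 8, 9] 33 U := by
  have hz0 := hU.2.2.1
  have hz1 := hU.2.2.2.1
  have hA := hU.2.2.2.2
  have p0 := pair_cases 1 U 0 hU
  have p2 := pair_cases 1 U 2 hU
  simp only [Nat.reduceMul, Nat.reduceAdd] at p0 p2 hz0 hz1
  rcases p0 with ⟨b0, b1⟩ | ⟨b0, b1⟩ | ⟨b0, b1⟩ <;> rcases p2 with ⟨b4, b5⟩ | ⟨b4, b5⟩ | ⟨b4, b5⟩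
  · refine Or.inl ?_
    refine en_of 1 U 0 [] [3, 4, 5, 6, 7, 8, 9] hU (by norm_num) ?_ ?_ ?_
    · intro j hj hn2 hn3
      have hj3 : j < 3 := by
        by_contra hcc
        exact hn3 (by interval_cases j <;> first | decide | omega)
      interval_cases j
      · exact ⟨b0, b1⟩
      · exact ⟨hz0, hz1⟩
      · exact ⟨b4, b5⟩
    · intro j hj; exact absurd hj (by simp)
    · decide
  · refine Or.inr (Or.inl ?_)
    refine en_of 1 U 16 [] [3, 4, 5, 6, 7, 8, 9] hU (by norm_num) ?_ ?_ ?_
    · intro j hj hn2 hn3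
      have hj3 : j < 3 := by
        by_contra hcc
        exact hn3 (by interval_cases j <;> first | decide | omega)
      interval_cases j
      · exact ⟨b0, b1⟩
      · exact ⟨hz0, hz1⟩
      · exact ⟨b4, b5⟩
    · intro j hj; exact absurd hj (by simp)
    · decide
  · refine Or.inr (Or.inr (Or.inl ?_))
    refine en_of 1 U 32 [] [3, 4, 5, 6, 7, 8, 9] hU (by norm_num) ?_ ?_ ?_
    · intro j hj hn2 hn3
      have hj3 : j < 3 := by
        by_contra hcc
        exact hn3 (by interval_cases j <;> first | decide | omega)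
      interval_cases j
      · exact ⟨b0, b1⟩
      · exact ⟨hz0, hz1⟩
      · exact ⟨b4, b5⟩
    · intro j hj; exact absurd hj (by simp)
    · decide
  · refine Or.inr (Or.inr (Or.inr (Or.inl ?_)))
    refine en_of 1 U 1 [] [3, 4, 5, 6, 7, 8, 9] hU (by norm_num) ?_ ?_ ?_
    · intro j hj hn2 hn3
      have hj3 : j < 3 := by
        by_contra hcc
        exact hn3 (by interval_cases j <;> first | decide | omega)
      interval_cases j
      · exact ⟨b0, b1⟩
      · exact ⟨hz0, hz1⟩
      · exact ⟨b4, b5⟩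
    · intro j hj; exact absurd hj (by simp)
    · decide
  · refine Or.inr (Or.inr (Or.inr (Or.inr (Or.inl ?_))))
    refine en_of 1 U 17 [] [3, 4, 5, 6, 7, 8, 9] hU (by norm_num) ?_ ?_ ?_
    · intro j hj hn2 hn3
      have hj3 : j < 3 := by
        by_contra hcc
        exact hn3 (by interval_cases j <;> first | decide | omega)
      interval_cases j
      · exact ⟨b0, b1⟩
      · exact ⟨hz0, hz1⟩
      · exact ⟨b4, b5⟩
    · intro j hj; exact absurd hj (by simp)
    · decide
  · refine Or.inr (Or.inr (Or.inr (Or.inr (Or.inr (?_)))))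
    refine en_of 1 U 33 [] [3, 4, 5, 6, 7, 8, 9] hU (by norm_num) ?_ ?_ ?_
    · intro j hj hn2 hn3
      have hj3 : j < 3 := by
        by_contra hcc
        exact hn3 (by interval_cases j <;> first | decide | omega)
      interval_cases j
      · exact ⟨b0, b1⟩
      · exact ⟨hz0, hz1⟩
      · exact ⟨b4, b5⟩
    · intro j hj; exact absurd hj (by simp)
    · decide
  · exfalso
    rcases hA with hA | ⟨hA, hB⟩
    · have := hA 1 b1
      omega
    · rw [b0] at hA; exact absurd hA (by decide)
  · exfalso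
    rcases hA with hA | ⟨hA, hB⟩
    · have := hA 1 b1
      omega
    · rw [b0] at hA; exact absurd hA (by decide)
  · exfalso
    rcases hA with hA | ⟨hA, hB⟩
    · have := hA 1 b1
      omega
    · rw [b0] at hA; exact absurd hA (by decide)

theorem cases2 (U : ℕ) (hU : FamH 2 U) :
    En [] [3, 4, 5, 6, 7, 8, 9] 0 U ∨ En [] [3, 4, 5, 6, 7, 8, 9] 5 U ∨ En [] [3, 4, 5, 6, 7, 8, 9] 9 U := by
  have hz0 := hU.2.2.1
  have hz1 := hU.2.2.2.1
  have hA := hU.2.2.2.2
  have p0 := pair_cases 2 U 0 hU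
  have p1 := pair_cases 2 U 1 hU
  simp only [Nat.reduceMul, Nat.reduceAdd] at p0 p1 hz0 hz1
  rcases p0 with ⟨b0, b1⟩ | ⟨b0, b1⟩ | ⟨b0, b1⟩ <;> rcases p1 with ⟨b2, b3⟩ | ⟨b2, b3⟩ | ⟨b2, b3⟩
  · refine Or.inl ?_
    refine en_of 2 U 0 [] [3, 4, 5, 6, 7, 8, 9] hU (by norm_num) ?_ ?_ ?_
    · intro j hj hn2 hn3
      have hj3 : j < 3 := by
        by_contra hcc
        exact hn3 (by interval_cases j <;> first | decide | omega)
      interval_cases j
      · exact ⟨b0, b1⟩
      · exact ⟨b2, b3⟩
      · exact ⟨hz0, hz1⟩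
    · intro j hj; exact absurd hj (by simp)
    · decide
  · exfalso
    rcases hA with hA | ⟨hA, hB⟩
    · have := hA 2 b2
      omega
    · rw [b0] at hA; exact absurd hA (by decide)
  · exfalso
    rcases hA with hA | ⟨hA, hB⟩
    · have := hA 3 b3
      omega
    · rw [b0] at hA; exact absurd hA (by decide)
  · exfalso
    rcases hA with hA | ⟨hA, hB⟩
    · have := hA 0 b0
      omega
    · have := hB 1 (by norm_num)
      simp only [Nat.reduceMul, Nat.reduceAdd] at this
      rw [b2, b3] at this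
      simp at this
  · refine Or.inr (Or.inl ?_)
    refine en_of 2 U 5 [] [3, 4, 5, 6, 7, 8, 9] hU (by norm_num) ?_ ?_ ?_
    · intro j hj hn2 hn3
      have hj3 : j < 3 := by
        by_contra hcc
        exact hn3 (by interval_cases j <;> first | decide | omega)
      interval_cases j
      · exact ⟨b0, b1⟩
      · exact ⟨b2, b3⟩
      · exact ⟨hz0, hz1⟩
    · intro j hj; exact absurd hj (by simp)
    · decide
  · refine Or.inr (Or.inr (?_))
    refine en_of 2 U 9 [] [3, 4, 5, 6, 7, 8, 9] hU (by norm_num) ?_ ?_ ?_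
    · intro j hj hn2 hn3
      have hj3 : j < 3 := by
        by_contra hcc
        exact hn3 (by interval_cases j <;> first | decide | omega)
      interval_cases j
      · exact ⟨b0, b1⟩
      · exact ⟨b2, b3⟩
      · exact ⟨hz0, hz1⟩
    · intro j hj; exact absurd hj (by simp)
    · decide
  · exfalso
    rcases hA with hA | ⟨hA, hB⟩
    · have := hA 1 b1
      omega
    · rw [b0] at hA; exact absurd hA (by decide)
  · exfalso
    rcases hA with hA | ⟨hA, hB⟩
    · have := hA 2 b2
      omega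
    · rw [b0] at hA; exact absurd hA (by decide)
  · exfalso
    rcases hA with hA | ⟨hA, hB⟩
    · have := hA 3 b3
      omega
    · rw [b0] at hA; exact absurd hA (by decide)

theorem cases3 (U : ℕ) (hU : FamH 3 U) :
    En [] [4, 5, 6, 7, 8, 9] 0 U ∨ En [1, 2] [4, 5, 6, 7, 8, 9] 1 U := by
  exact cases_ge 3 U hU (by norm_num) (by norm_num) _ _ (by intro j; simp; omega) (by intro j; simp; omega)

theorem cases4 (U : ℕ) (hU : FamH 4 U) :
    En [] [5, 6, 7, 8, 9] 0 U ∨ En [1, 2, 3] [5, 6, 7, 8, 9] 1 U := by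
  exact cases_ge 4 U hU (by norm_num) (by norm_num) _ _ (by intro j; simp; omega) (by intro j; simp; omega)

theorem cases5 (U : ℕ) (hU : FamH 5 U) :
    En [] [6, 7, 8, 9] 0 U ∨ En [1, 2, 3, 4] [6, 7, 8, 9] 1 U := by
  exact cases_ge 5 U hU (by norm_num) (by norm_num) _ _ (by intro j; simp; omega) (by intro j; simp; omega)

theorem cases6 (U : ℕ) (hU : FamH 6 U) :
    En [] [7, 8, 9] 0 U ∨ En [1, 2, 3, 4, 5] [7, 8, 9] 1 U := by
  exact cases_ge 6 U hU (by norm_num) (by norm_num) _ _ (by intro j; simp; omega) (by intro j; simp; omega)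

theorem cases7 (U : ℕ) (hU : FamH 7 U) :
    En [] [8, 9] 0 U ∨ En [1, 2, 3, 4, 5, 6] [8, 9] 1 U := by
  exact cases_ge 7 U hU (by norm_num) (by norm_num) _ _ (by intro j; simp; omega) (by intro j; simp; omega)

theorem cases8 (U : ℕ) (hU : FamH 8 U) :
    En [] [9] 0 U ∨ En [1, 2, 3, 4, 5, 6, 7] [9] 1 U := by
  exact cases_ge 8 U hU (by norm_num) (by norm_num) _ _ (by intro j; simp; omega) (by intro j; simp; omega)

theorem cases9 (U : ℕ) (hU : FamH 9 U) :
    En [] [] 0 U ∨ En [1, 2, 3, 4, 5, 6, 7, 8] [] 1 U := by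
  exact cases_ge 9 U hU (by norm_num) (by norm_num) _ _ (by intro j; simp; omega) (by intro j; simp; omega)

end Pool.Agent.helper73.TC.Y5

namespace Pool.Agent.helper73.TC
open Y5
theorem good0 (F : Type) [Field F] (i U : ℕ) (hi : i < 10) (hU : FamH i U) :
    Good F false (2 * i) (Pa.NV i) (Pa.NE i) U := by
  interval_cases i
  · rcases cases0 U hU with h | h | h | h | h | h | h | h | h
    · exact use0 F 0 U 0 _ _ _ _ (by decide) (by norm_num) (by decide) (by decide) Pa.fam_0_0_0 h
    · exact use0 F 0 U 16 _ _ _ _ (by decide) (by norm_num) (by decide) (by decide) Pa.fam_0_0_16 h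
    · exact use0 F 0 U 32 _ _ _ _ (by decide) (by norm_num) (by decide) (by decide) Pa.fam_0_0_32 h
    · exact use0 F 0 U 4 _ _ _ _ (by decide) (by norm_num) (by decide) (by decide) Pa.fam_0_0_4 h
    · exact use0 F 0 U 20 _ _ _ _ (by decide) (by norm_num) (by decide) (by decide) Pa.fam_0_0_20 h
    · exact use0 F 0 U 36 _ _ _ _ (by decide) (by norm_num) (by decide) (by decide) Pa.fam_0_0_36 h
    · exact use0 F 0 U 8 _ _ _ _ (by decide) (by norm_num) (by decide) (by decide) Pa.fam_0_0_8 h
    · exact use0 F 0 U 24 _ _ _ _ (by decide) (by norm_num) (by decide) (by decide) Pa.fam_0_0_24 h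
    · exact use0 F 0 U 40 _ _ _ _ (by decide) (by norm_num) (by decide) (by decide) Pa.fam_0_0_40 h
  · rcases cases1 U hU with h | h | h | h | h | h
    · exact use0 F 1 U 0 _ _ _ _ (by decide) (by norm_num) (by decide) (by decide) Pa.fam_0_2_0 h
    · exact use0 F 1 U 16 _ _ _ _ (by decide) (by norm_num) (by decide) (by decide) Pa.fam_0_2_16 h
    · exact use0 F 1 U 32 _ _ _ _ (by decide) (by norm_num) (by decide) (by decide) Pa.fam_0_2_32 h
    · exact use0 F 1 U 1 _ _ _ _ (by decide) (by norm_num) (by decide) (by decide) Pa.fam_0_2_1 h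
    · exact use0 F 1 U 17 _ _ _ _ (by decide) (by norm_num) (by decide) (by decide) Pa.fam_0_2_17 h
    · exact use0 F 1 U 33 _ _ _ _ (by decide) (by norm_num) (by decide) (by decide) Pa.fam_0_2_33 h
  · rcases cases2 U hU with h | h | h
    · exact use0 F 2 U 0 _ _ _ _ (by decide) (by norm_num) (by decide) (by decide) Pa.fam_0_4_0 h
    · exact use0 F 2 U 5 _ _ _ _ (by decide) (by norm_num) (by decide) (by decide) Pa.fam_0_4_5 h
    · exact use0 F 2 U 9 _ _ _ _ (by decide) (by norm_num) (by decide) (by decide) Pa.fam_0_4_9 h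
  · rcases cases3 U hU with h | h
    · exact use0 F 3 U 0 _ _ _ _ (by decide) (by norm_num) (by decide) (by decide) Pa.fam_0_6_0 h
    · exact use0 F 3 U 1 _ _ _ _ (by decide) (by norm_num) (by decide) (by decide) Pa.fam_0_6_1 h
  · rcases cases4 U hU with h | h
    · exact use0 F 4 U 0 _ _ _ _ (by decide) (by norm_num) (by decide) (by decide) Pa.fam_0_8_0 h
    · exact use0 F 4 U 1 _ _ _ _ (by decide) (by norm_num) (by decide) (by decide) Pa.fam_0_8_1 h
  · rcases cases5 U hU with h | h
    · exact use0 F 5 U 0 _ _ _ _ (by decide) (by norm_num) (by decide) (by decide) Pa.fam_0_10_0 h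
    · exact use0 F 5 U 1 _ _ _ _ (by decide) (by norm_num) (by decide) (by decide) Pa.fam_0_10_1 h
  · rcases cases6 U hU with h | h
    · exact use0 F 6 U 0 _ _ _ _ (by decide) (by norm_num) (by decide) (by decide) Pa.fam_0_12_0 h
    · exact use0 F 6 U 1 _ _ _ _ (by decide) (by norm_num) (by decide) (by decide) Pa.fam_0_12_1 h
  · rcases cases7 U hU with h | h
    · exact use0 F 7 U 0 _ _ _ _ (by decide) (by norm_num) (by decide) (by decide) Pa.fam_0_14_0 h
    · exact use0 F 7 U 1 _ _ _ _ (by decide) (by norm_num) (by decide) (by decide) Pa.fam_0_14_1 h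
  · rcases cases8 U hU with h | h
    · exact use0 F 8 U 0 _ _ _ _ (by decide) (by norm_num) (by decide) (by decide) Pa.fam_0_16_0 h
    · exact use0 F 8 U 1 _ _ _ _ (by decide) (by norm_num) (by decide) (by decide) Pa.fam_0_16_1 h
  · rcases cases9 U hU with h | h
    · exact use0 F 9 U 0 _ _ _ _ (by decide) (by norm_num) (by decide) (by decide) Pa.fam_0_18_0 h
    · exact use0 F 9 U 1 _ _ _ _ (by decide) (by norm_num) (by decide) (by decide) Pa.fam_0_18_1 h

theorem good1 (F : Type) [Field F] (i U : ℕ) (hi : i < 10) (hU : FamH i U) :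
    Good F true (2 * i) (Pa.NV i) (Pa.NE i) (cmpl i U) := by
  interval_cases i
  · rcases cases0 U hU with h | h | h | h | h | h | h | h | h
    · exact use1 F 0 U 0 1048572 _ _ _ _ (by decide) (by norm_num) (by decide) (by decide) (by decide) Pa.fam_1_0_1048572 h
    · exact use1 F 0 U 16 1048556 _ _ _ _ (by decide) (by norm_num) (by decide) (by decide) (by decide) Pa.fam_1_0_1048556 h
    · exact use1 F 0 U 32 1048540 _ _ _ _ (by decide) (by norm_num) (by decide) (by decide) (by decide) Pa.fam_1_0_1048540 h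
    · exact use1 F 0 U 4 1048568 _ _ _ _ (by decide) (by norm_num) (by decide) (by decide) (by decide) Pa.fam_1_0_1048568 h
    · exact use1 F 0 U 20 1048552 _ _ _ _ (by decide) (by norm_num) (by decide) (by decide) (by decide) Pa.fam_1_0_1048552 h
    · exact use1 F 0 U 36 1048536 _ _ _ _ (by decide) (by norm_num) (by decide) (by decide) (by decide) Pa.fam_1_0_1048536 h
    · exact use1 F 0 U 8 1048564 _ _ _ _ (by decide) (by norm_num) (by decide) (by decide) (by decide) Pa.fam_1_0_1048564 h
    · exact use1 F 0 U 24 1048548 _ _ _ _ (by decide) (by norm_num) (by decide) (by decide) (by decide) Pa.fam_1_0_1048548 h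
    · exact use1 F 0 U 40 1048532 _ _ _ _ (by decide) (by norm_num) (by decide) (by decide) (by decide) Pa.fam_1_0_1048532 h
  · rcases cases1 U hU with h | h | h | h | h | h
    · exact use1 F 1 U 0 1048563 _ _ _ _ (by decide) (by norm_num) (by decide) (by decide) (by decide) Pa.fam_1_2_1048563 h
    · exact use1 F 1 U 16 1048547 _ _ _ _ (by decide) (by norm_num) (by decide) (by decide) (by decide) Pa.fam_1_2_1048547 h
    · exact use1 F 1 U 32 1048531 _ _ _ _ (by decide) (by norm_num) (by decide) (by decide) (by decide) Pa.fam_1_2_1048531 h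
    · exact use1 F 1 U 1 1048562 _ _ _ _ (by decide) (by norm_num) (by decide) (by decide) (by decide) Pa.fam_1_2_1048562 h
    · exact use1 F 1 U 17 1048546 _ _ _ _ (by decide) (by norm_num) (by decide) (by decide) (by decide) Pa.fam_1_2_1048546 h
    · exact use1 F 1 U 33 1048530 _ _ _ _ (by decide) (by norm_num) (by decide) (by decide) (by decide) Pa.fam_1_2_1048530 h
  · rcases cases2 U hU with h | h | h
    · exact use1 F 2 U 0 1048527 _ _ _ _ (by decide) (by norm_num) (by decide) (by decide) (by decide) Pa.fam_1_4_1048527 h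
    · exact use1 F 2 U 5 1048522 _ _ _ _ (by decide) (by norm_num) (by decide) (by decide) (by decide) Pa.fam_1_4_1048522 h
    · exact use1 F 2 U 9 1048518 _ _ _ _ (by decide) (by norm_num) (by decide) (by decide) (by decide) Pa.fam_1_4_1048518 h
  · rcases cases3 U hU with h | h
    · exact use1 F 3 U 0 1048383 _ _ _ _ (by decide) (by norm_num) (by decide) (by decide) (by decide) Pa.fam_1_6_1048383 h
    · exact use1 F 3 U 1 1048382 _ _ _ _ (by decide) (by norm_num) (by decide) (by decide) (by decide) Pa.fam_1_6_1048382 h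
  · rcases cases4 U hU with h | h
    · exact use1 F 4 U 0 1047807 _ _ _ _ (by decide) (by norm_num) (by decide) (by decide) (by decide) Pa.fam_1_8_1047807 h
    · exact use1 F 4 U 1 1047806 _ _ _ _ (by decide) (by norm_num) (by decide) (by decide) (by decide) Pa.fam_1_8_1047806 h
  · rcases cases5 U hU with h | h
    · exact use1 F 5 U 0 1045503 _ _ _ _ (by decide) (by norm_num) (by decide) (by decide) (by decide) Pa.fam_1_10_1045503 h
    · exact use1 F 5 U 1 1045502 _ _ _ _ (by decide) (by norm_num) (by decide) (by decide) (by decide) Pa.fam_1_10_1045502 h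
  · rcases cases6 U hU with h | h
    · exact use1 F 6 U 0 1036287 _ _ _ _ (by decide) (by norm_num) (by decide) (by decide) (by decide) Pa.fam_1_12_1036287 h
    · exact use1 F 6 U 1 1036286 _ _ _ _ (by decide) (by norm_num) (by decide) (by decide) (by decide) Pa.fam_1_12_1036286 h
  · rcases cases7 U hU with h | h
    · exact use1 F 7 U 0 999423 _ _ _ _ (by decide) (by norm_num) (by decide) (by decide) (by decide) Pa.fam_1_14_999423 h
    · exact use1 F 7 U 1 999422 _ _ _ _ (by decide) (by norm_num) (by decide) (by decide) (by decide) Pa.fam_1_14_999422 h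
  · rcases cases8 U hU with h | h
    · exact use1 F 8 U 0 851967 _ _ _ _ (by decide) (by norm_num) (by decide) (by decide) (by decide) Pa.fam_1_16_851967 h
    · exact use1 F 8 U 1 851966 _ _ _ _ (by decide) (by norm_num) (by decide) (by decide) (by decide) Pa.fam_1_16_851966 h
  · rcases cases9 U hU with h | h
    · exact use1 F 9 U 0 262143 _ _ _ _ (by decide) (by norm_num) (by decide) (by decide) (by decide) Pa.fam_1_18_262143 h
    · exact use1 F 9 U 1 262142 _ _ _ _ (by decide) (by norm_num) (by decide) (by decide) (by decide) Pa.fam_1_18_262142 h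

end Pool.Agent.helper73.TC
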